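import Mathlib

/-!
# Partition rank and analytic rank: the statements

`UniformLarge d` is the linear bound for all finite fields with at least `q₀ (d)` elements,
`Uniform d` the linear bound for all finite fields (the constant depends only on `d`).
-/

set_option autoImplicit false

namespace Pool.Agent.T6.H37.PA

/-- `(d + 2)`-linear forms on `F ^ (n 0) × … × F ^ (n (d + 1))` -/
abbrev MForm (F : Type) [Field F] {d : ℕ} (n : Fin (d + 2) → ℕ) : Type :=
  MultilinearMap F (fun i : Fin (d + 2) => Fin (n i) → F) F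

/-- The analytic rank: `- log_q` of the proportion of all `x` such that `T (x 0, …, x (d + 1))`
vanishes identically in the argument `x 0`. -/
noncomputable def arank {F : Type} [Field F] [Fintype F] {d : ℕ} {n : Fin (d + 2) → ℕ}
    (T : MForm F n) : ℝ :=
  -Real.logb (Fintype.card F : ℝ)
    ((Nat.card {x : (i : Fin (d + 2)) → Fin (n i) → F //
      ∀ y : Fin (n 0) → F, T (Function.update x 0 y) = 0} : ℝ) /
      (Nat.card ((i : Fin (d + 2)) → Fin (n i) → F) : ℝ))

/-- The partition rank is at most `r`. -/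
def PRLe {F : Type} [Field F] {d : ℕ} {n : Fin (d + 2) → ℕ} (T : MForm F n) (r : ℕ) : Prop :=
  ∃ S : Fin r → Finset (Fin (d + 2)),
  ∃ a : (k : Fin r) → MultilinearMap F (fun j : {j // j ∈ S k} => Fin (n j.1) → F) F,
  ∃ b : (k : Fin r) → MultilinearMap F (fun j : {j // j ∉ S k} => Fin (n j.1) → F) F,
    (∀ k, (S k).Nonempty ∧ S k ≠ Finset.univ) ∧
    ∀ x : (i : Fin (d + 2)) → Fin (n i) → F,
      T x = ∑ k, a k (fun j => x j.1) * b k (fun j => x j.1)

/-- The linear bound for all finite fields which are sufficiently large in terms of `d`. -/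
def UniformLarge (d : ℕ) : Prop :=
  ∃ (q₀ : ℕ) (C : ℝ), 0 ≤ C ∧ ∀ (F : Type) [Field F] [Fintype F], q₀ ≤ Fintype.card F →
    ∀ (n : Fin (d + 2) → ℕ) (T : MForm F n), ∃ r : ℕ, (r : ℝ) ≤ C * arank T ∧ PRLe T r

/-- The linear bound for all finite fields, with a constant which depends only on `d`. -/
def Uniform (d : ℕ) : Prop :=
  ∃ C : ℝ, 0 ≤ C ∧ ∀ (F : Type) [Field F] [Fintype F]
    (n : Fin (d + 2) → ℕ) (T : MForm F n), ∃ r : ℕ, (r : ℝ) ≤ C * arank T ∧ PRLe T r

end Pool.Agent.T6.H37.PA
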